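import Pool.Agent.Helper91.FS.Goals2
import Pool.Agent.Helper81.FS.PG4

/-! Packet FS-PG5: stabilisers of the 4-sets in overgroups of sharply 3-transitive groups. -/

set_option autoImplicit false

namespace Pool.Agent.Helper52.FS

open Finset
open Pool.Agent.Helper47.SR (Grp mv lev wt Ew W)
open Pool.Agent.Helper49.NF
open Pool.Agent.Helper91.FS
open Pool.Agent.Helper81.FS

variable {n : ℕ}

open Classical in
/-- the nontrivial elements of `N` which map the 3-set `T` to itself -/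
noncomputable def ET (N : Grp n) (T : Finset (Fin n)) : Finset (Equiv.Perm (Fin n)) :=
  univ.filter (fun γ => γ ∈ N ∧ γ ≠ 1 ∧ mv γ T = T)

lemma mem_ET {N : Grp n} {T : Finset (Fin n)} {γ : Equiv.Perm (Fin n)} :
    γ ∈ ET N T ↔ γ ∈ N ∧ γ ≠ 1 ∧ mv γ T = T := by
  simp [ET]

lemma card_fib {N : Grp n} {L : ℕ} {T : Finset (Fin n)} (hL : pst N T ≤ L)
    (D : Finset (Equiv.Perm (Fin n))) (hD : ∀ γ ∈ D, γ ∈ N)
    (h : ∀ γ ∈ D, ∀ δ ∈ D, ∀ x ∈ T, γ x = δ x) : #D ≤ L := by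
  classical
  rcases D.eq_empty_or_nonempty with rfl | ⟨δ, hδ⟩
  · simp
  refine le_trans ?_ hL
  unfold pst
  apply card_le_card_of_injOn (fun γ => δ⁻¹ * γ)
  · intro γ hγ
    have hγ' : γ ∈ D := hγ
    simp only [els, coe_filter, mem_filter, mem_univ, true_and, Set.mem_ofPred_eq]
    refine ⟨N.mul_mem (N.inv_mem (hD δ hδ)) (hD γ hγ'), fun x hx => ?_⟩
    rw [Equiv.Perm.mul_apply, h γ hγ' δ hδ x hx]
    simp
  · intro γ _ γ' _ hh
    exact mul_left_cancel hh

lemma card_ET {N : Grp n} {L : ℕ} {T : Finset (Fin n)} (hT : #T = 3) (hL : pst N T ≤ L) :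
    #(ET N T) ≤ 6 * L := by
  classical
  have h1 : Fintype.card (ET N T) ≤ L * #((univ : Finset (ET N T)).image
      (fun γ : ET N T => Equiv.Perm.subtypePerm (p := fun x => x ∈ T) γ.1
        (fun x => mv_mem (mem_ET.1 γ.2).2.2 x))) := by
    rw [← card_univ]
    apply card_le_mul_card_image
    intro σ _
    have h2 : #((univ : Finset (ET N T)).filter (fun γ : ET N T =>
        Equiv.Perm.subtypePerm (p := fun x => x ∈ T) γ.1
        (fun x => mv_mem (mem_ET.1 γ.2).2.2 x) = σ)) =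
        #(((univ : Finset (ET N T)).filter (fun γ : ET N T =>
        Equiv.Perm.subtypePerm (p := fun x => x ∈ T) γ.1
        (fun x => mv_mem (mem_ET.1 γ.2).2.2 x) = σ)).image (fun γ => γ.1)) := by
      rw [card_image_of_injective _ Subtype.val_injective]
    rw [h2]
    apply card_fib hL
    · intro γ hγ
      rw [mem_image] at hγ
      obtain ⟨g, -, rfl⟩ := hγ
      exact (mem_ET.1 g.2).1
    · intro γ hγ δ hδ x hx
      rw [mem_image] at hγ hδ
      obtain ⟨g, hg, rfl⟩ := hγ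
      obtain ⟨d, hd, rfl⟩ := hδ
      rw [mem_filter] at hg hd
      have h3 := congrArg (fun g : Equiv.Perm {x // x ∈ T} => (g ⟨x, hx⟩).1)
        (hg.2.trans hd.2.symm)
      simpa using h3
  have h2 : #((univ : Finset (ET N T)).image
      (fun γ : ET N T => Equiv.Perm.subtypePerm (p := fun x => x ∈ T) γ.1
        (fun x => mv_mem (mem_ET.1 γ.2).2.2 x))) ≤ 6 := by
    refine (card_le_univ _).trans ?_
    rw [Fintype.card_perm, Fintype.card_coe, hT]
    rfl
  rw [Fintype.card_coe] at h1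
  calc #(ET N T) ≤ L * _ := h1
    _ ≤ L * 6 := Nat.mul_le_mul_left _ h2
    _ = 6 * L := by ring

/-- the exceptional tuples -/
def Ex5 (N : Grp n) (b c d a : Fin n) : Prop :=
  b ≠ c ∧ b ≠ d ∧ c ≠ d ∧ ∃ γ ∈ N, γ ≠ 1 ∧ γ a = a ∧ mv γ {b, c, d} = {b, c, d}

lemma fib5 {N : Grp n} {L f : ℕ} (hE : Eg 3 n L f N) (b c d : Fin n) (D : Finset (Fin n))
    (hD : ∀ a ∈ D, Ex5 N b c d a) : #D ≤ 6 * L * f := by
  classical
  rcases D.eq_empty_or_nonempty with rfl | ⟨a₀, ha₀⟩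
  · simp
  obtain ⟨hbc, hbd, hcd, -⟩ := hD a₀ ha₀
  have h3 : #({b, c, d} : Finset (Fin n)) = 3 := by
    rw [card_eq_three]
    exact ⟨b, c, d, hbc, hbd, hcd, rfl⟩
  have h1 : D ⊆ (ET N {b, c, d}).biUnion
      (fun γ => (univ : Finset (Fin n)).filter (fun x => γ x = x)) := by
    intro a ha
    obtain ⟨-, -, -, γ, h4, h5, h6, h7⟩ := hD a ha
    rw [mem_biUnion]
    exact ⟨γ, mem_ET.2 ⟨h4, h5, h7⟩, by rw [mem_filter]; exact ⟨mem_univ _, h6⟩⟩
  calc #D ≤ _ := card_le_card h1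
    _ ≤ ∑ γ ∈ ET N {b, c, d}, #((univ : Finset (Fin n)).filter (fun x => γ x = x)) :=
        card_biUnion_le
    _ ≤ ∑ γ ∈ ET N {b, c, d}, f := by
        apply sum_le_sum
        intro γ hγ
        exact hE.fix γ (mem_ET.1 hγ).1 (mem_ET.1 hγ).2.1
    _ = #(ET N {b, c, d}) * f := by rw [sum_const, smul_eq_mul]
    _ ≤ (6 * L) * f := Nat.mul_le_mul_right _ (card_ET h3 (hE.st _ h3))

lemma bad_tuple5 {N : Grp n} {A : Finset (Fin n)} (hA : #A = 4)
    (h : 4 < #(sb N A)) : ∃ b c d a, A = {b, c, d, a} ∧ Ex5 N b c d a := by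
  classical
  obtain ⟨a, ha⟩ : A.Nonempty := by rw [← card_pos, hA]; norm_num
  obtain ⟨b, c, d, hab, hac, had, hbc, hbd, hcd, hAe⟩ := four hA ha
  have h1 : ∀ γ ∈ sb N A, γ a ∈ A := fun γ hγ => (mv_mem (mem_sb.1 hγ).2 a).2 ha
  obtain ⟨γ, hγ, δ, hδ, hne, heq⟩ := exists_ne_map_eq_of_card_lt_of_maps_to (t := A)
    (by rw [hA]; exact h) h1
  obtain ⟨g, hg⟩ : ∃ g, g = δ⁻¹ * γ := ⟨_, rfl⟩
  have hgG : g ∈ N := by
    rw [hg]
    exact N.mul_mem (N.inv_mem (mem_sb.1 hδ).1) (mem_sb.1 hγ).1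
  have hga : g a = a := by
    rw [hg, Equiv.Perm.mul_apply, heq]
    simp
  have hg1 : g ≠ 1 := by
    intro h
    exact hne (inv_mul_eq_one.1 (hg ▸ h)).symm
  have hgA : ∀ x ∈ A, g x ∈ A := by
    intro x hx
    have h2 := (mv_mem (mem_sb.1 hγ).2 x).2 hx
    rw [← mv_mem (mem_sb.1 hδ).2, hg, Equiv.Perm.mul_apply]
    simpa using h2
  refine ⟨b, c, d, a, ?_, hbc, hbd, hcd, g, hgG, hg1, hga, mv_of ?_⟩
  · rw [hAe]; ext x; simp only [mem_insert, mem_singleton]; tauto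
  · intro x hx
    have hxa : x ≠ a := by
      rintro rfl
      simp only [mem_insert, mem_singleton] at hx
      tauto
    have hxA : x ∈ A := by
      rw [hAe]
      simp only [mem_insert, mem_singleton] at hx ⊢
      tauto
    have h2 := hgA x hxA
    have h3 : g x ≠ a := fun hgx => hxa (g.injective (hgx.trans hga.symm))
    rw [hAe] at h2
    simp only [mem_insert, mem_singleton] at h2 ⊢
    tauto

/-- **PG5**. -/
theorem goal_PG5 : Goal_PG5 := by
  classical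
  intro n L f P N hn hP hPN hE
  have hlow : ∀ A ∈ lev n 4, 4 ≤ 1 + wt N A := by
    intro A hA
    rw [mem_powersetCard] at hA
    rw [← card_sb]
    refine (low hP hA.2).trans (card_le_card ?_)
    intro γ hγ
    rw [mem_sb] at hγ ⊢
    exact ⟨hPN hγ.1, hγ.2⟩
  refine ⟨hlow, ?_⟩
  obtain ⟨T, hT⟩ : ∃ T : Finset (Fin n × Fin n × Fin n × Fin n),
      T = univ.filter (fun p => Ex5 N p.1 p.2.1 p.2.2.1 p.2.2.2) := ⟨_, rfl⟩
  have h1 : (lev n 4).filter (fun A => 1 + wt N A ≠ 4) ⊆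
      T.image (fun p => ({p.1, p.2.1, p.2.2.1, p.2.2.2} : Finset (Fin n))) := by
    intro A hA
    rw [mem_filter] at hA
    have h4 := hlow A hA.1
    have h5 := hA.1
    rw [mem_powersetCard] at h5
    obtain ⟨a, b, c, d, h2, h3⟩ := bad_tuple5 (N := N) h5.2 (by rw [card_sb]; omega)
    rw [mem_image]
    exact ⟨(a, b, c, d), by rw [hT, mem_filter]; exact ⟨mem_univ _, h3⟩, h2.symm⟩
  have h2 : #T ≤ (6 * L * f) * #(univ : Finset (Fin n × Fin n × Fin n)) := by
    apply card_le_mul_card_image_of_maps_to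
      (f := fun p : Fin n × Fin n × Fin n × Fin n => (p.1, p.2.1, p.2.2.1)) (fun _ _ => mem_univ _)
    rintro ⟨a, b, c⟩ -
    have h3 : #(T.filter (fun p => (p.1, p.2.1, p.2.2.1) = (a, b, c))) ≤
        #((univ : Finset (Fin n)).filter (fun d => Ex5 N a b c d)) := by
      apply card_le_card_of_injOn (fun p => p.2.2.2)
      · rintro ⟨a', b', c', d'⟩ hp
        simp only [coe_filter, hT, mem_filter, mem_univ, true_and, Prod.mk.injEq,
          Set.mem_ofPred_eq] at hp ⊢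
        obtain ⟨h4, rfl, rfl, rfl⟩ := hp
        exact h4
      · rintro ⟨a', b', c', d'⟩ hp ⟨a'', b'', c'', d''⟩ hq h
        simp only [coe_filter, hT, mem_filter, mem_univ, true_and, Prod.mk.injEq,
          Set.mem_ofPred_eq] at hp hq h
        obtain ⟨-, rfl, rfl, rfl⟩ := hp
        obtain ⟨-, rfl, rfl, rfl⟩ := hq
        rw [h]
    exact h3.trans (fib5 hE a b c _ (fun d hd => (mem_filter.1 hd).2))
  calc _ ≤ _ := card_le_card h1
    _ ≤ #T := card_image_le
    _ ≤ _ := h2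
    _ = 6 * L * f * n ^ 3 := by
        rw [card_univ]
        simp only [Fintype.card_prod, Fintype.card_fin]
        ring

end Pool.Agent.Helper52.FS
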